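import Mathlib

/-!
A bound for the additive energy of a set with an arbitrary second set, and for sumsets.
-/

set_option autoImplicit false

open Finset
open scoped Pointwise

namespace Pool.Agent.Y942.SQ

variable {G : Type} [AddCommGroup G] [DecidableEq G]

/-- number of representations as a difference -/
def rho (A : Finset G) (x : G) : ℕ := ((A ×ˢ A).filter (fun y => y.1 - y.2 = x)).card

theorem energy_eq (A B : Finset G) :
    A.addEnergy B = ∑ y ∈ B ×ˢ B, rho A (y.2 - y.1) := by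
  unfold Finset.addEnergy rho
  rw [card_filter, sum_product_right]
  apply sum_congr rfl
  intro y _
  rw [card_filter]
  apply sum_congr rfl
  intro x _
  have : (x.1 + y.1 = x.2 + y.2) ↔ (x.1 - x.2 = y.2 - y.1) := by
    constructor
    · intro h
      have : x.1 = x.2 + y.2 - y.1 := by rw [← h]; abel
      rw [this]; abel
    · intro h
      have : x.1 = y.2 - y.1 + x.2 := by rw [← h]; abel
      rw [this]; abel
  by_cases h : x.1 + y.1 = x.2 + y.2
  · rw [if_pos h, if_pos (this.1 h)]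
  · rw [if_neg h, if_neg (fun h' => h (this.2 h'))]

theorem sum_rho_sq_le (A T : Finset G) : ∑ x ∈ T, rho A x ^ 2 ≤ A.addEnergy A := by
  rw [energy_eq]
  have h1 : ∀ x ∈ T, rho A x ^ 2 = ∑ y ∈ (A ×ˢ A).filter (fun y => y.2 - y.1 = x), rho A (y.2 - y.1) := by
    intro x _
    have : ∑ y ∈ (A ×ˢ A).filter (fun y => y.2 - y.1 = x), rho A (y.2 - y.1) =
        ∑ y ∈ (A ×ˢ A).filter (fun y => y.2 - y.1 = x), rho A x := by
      apply sum_congr rfl
      intro y hy
      rw [(mem_filter.1 hy).2]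
    rw [this, sum_const, smul_eq_mul, sq]
    congr 1
    unfold rho
    apply card_bij (fun y _ => (y.2, y.1))
    · intro y hy
      rw [mem_filter, mem_product] at hy ⊢
      exact ⟨⟨hy.1.2, hy.1.1⟩, hy.2⟩
    · intro y _ z _ h
      rw [Prod.mk.injEq] at h
      exact Prod.ext h.2 h.1
    · intro y hy
      rw [mem_filter, mem_product] at hy
      exact ⟨(y.2, y.1), mem_filter.2 ⟨mem_product.2 ⟨hy.1.2, hy.1.1⟩, hy.2⟩, rfl⟩
  rw [sum_congr rfl h1]
  have h2 : ∑ x ∈ T, ∑ y ∈ (A ×ˢ A).filter (fun y => y.2 - y.1 = x), rho A (y.2 - y.1)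
      = ∑ y ∈ (A ×ˢ A).filter (fun y => y.2 - y.1 ∈ T), rho A (y.2 - y.1) := by
    rw [← sum_biUnion]
    · apply sum_congr _ (fun _ _ => rfl)
      ext y
      simp only [mem_biUnion, mem_filter, mem_product]
      constructor
      · rintro ⟨x, hx, hy, rfl⟩
        exact ⟨hy, hx⟩
      · rintro ⟨hy, hx⟩
        exact ⟨_, hx, hy, rfl⟩
    · intro x _ x' _ hxx'
      change Disjoint _ _
      rw [disjoint_left]
      intro y hy hy'
      exact hxx' ((mem_filter.1 hy).2.symm.trans (mem_filter.1 hy').2)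
  rw [h2]
  exact sum_le_sum_of_subset (filter_subset _ _)

/-- Cauchy's inequality for the energy with an arbitrary set -/
theorem energy_sq_le (A B : Finset G) : (A.addEnergy B) ^ 2 ≤ B.card ^ 3 * A.addEnergy A := by
  rw [energy_eq A B]
  have h1 := sq_sum_le_card_mul_sum_sq (s := B ×ˢ B) (f := fun y => rho A (y.2 - y.1))
  refine h1.trans ?_
  rw [card_product]
  have h2 : ∑ y ∈ B ×ˢ B, rho A (y.2 - y.1) ^ 2 ≤ B.card * A.addEnergy A := by
    rw [sum_product]
    calc ∑ b ∈ B, ∑ c ∈ B, rho A (c - b) ^ 2 ≤ ∑ _b ∈ B, A.addEnergy A := by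
          apply sum_le_sum
          intro b _
          have h3 : ∑ c ∈ B, rho A (c - b) ^ 2 = ∑ x ∈ B.image (fun c => c - b), rho A x ^ 2 := by
            rw [sum_image]
            intro x _ y _ h
            exact sub_left_injective h
          rw [h3]
          exact sum_rho_sq_le A _
      _ = B.card * A.addEnergy A := by rw [sum_const, smul_eq_mul]
  calc B.card * B.card * ∑ y ∈ B ×ˢ B, rho A (y.2 - y.1) ^ 2
      ≤ B.card * B.card * (B.card * A.addEnergy A) := Nat.mul_le_mul_left _ h2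
    _ = B.card ^ 3 * A.addEnergy A := by ring

/-- an energy bound gives growth of all sumsets -/
theorem sumset_of_energy (A B : Finset G) (δ C : ℝ) (hC : 0 ≤ C) (hδ : 0 < δ)
    (h : ((A.addEnergy A : ℕ) : ℝ) ≤ C * (A.card : ℝ) ^ (3 - δ)) :
    (A.card : ℝ) ^ (1 + δ) * (B.card : ℝ) ≤ C * ((A + B).card : ℝ) ^ 2 := by
  rcases A.eq_empty_or_nonempty with rfl | hA
  · rw [card_empty, Nat.cast_zero, Real.zero_rpow (by linarith), zero_mul]
    positivity
  rcases B.eq_empty_or_nonempty with rfl | hB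
  · rw [card_empty, Nat.cast_zero, mul_zero]
    positivity
  have ha : (0 : ℝ) < A.card := by exact_mod_cast hA.card_pos
  have hb : (0 : ℝ) < B.card := by exact_mod_cast hB.card_pos
  have h1 : A.card ^ 2 * B.card ^ 2 ≤ (A + B).card * A.addEnergy B :=
    le_card_add_mul_addEnergy A B
  have h2 := energy_sq_le A B
  have h3 : (A.card ^ 2 * B.card ^ 2) ^ 2 ≤ (A + B).card ^ 2 * (B.card ^ 3 * A.addEnergy A) := by
    calc (A.card ^ 2 * B.card ^ 2) ^ 2 ≤ ((A + B).card * A.addEnergy B) ^ 2 := Nat.pow_le_pow_left h1 2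
      _ = (A + B).card ^ 2 * (A.addEnergy B) ^ 2 := by ring
      _ ≤ _ := Nat.mul_le_mul_left _ h2
  have h4 : ((A.card : ℝ) ^ 2 * (B.card : ℝ) ^ 2) ^ 2 ≤
      ((A + B).card : ℝ) ^ 2 * ((B.card : ℝ) ^ 3 * ((A.addEnergy A : ℕ) : ℝ)) := by
    exact_mod_cast h3
  have h5 : ((A.card : ℝ) ^ 2 * (B.card : ℝ) ^ 2) ^ 2 ≤
      ((A + B).card : ℝ) ^ 2 * ((B.card : ℝ) ^ 3 * (C * (A.card : ℝ) ^ (3 - δ))) := by
    refine h4.trans ?_
    gcongr
  have h6 : ((A.card : ℝ) ^ 2 * (B.card : ℝ) ^ 2) ^ 2 =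
      ((A.card : ℝ) ^ (1 + δ) * (B.card : ℝ)) * ((B.card : ℝ) ^ 3 * (A.card : ℝ) ^ (3 - δ)) := by
    have : (A.card : ℝ) ^ (1 + δ) * (A.card : ℝ) ^ (3 - δ) = (A.card : ℝ) ^ 4 := by
      rw [← Real.rpow_add ha]
      have : 1 + δ + (3 - δ) = ((4 : ℕ) : ℝ) := by push_cast; ring
      rw [this, Real.rpow_natCast]
    calc ((A.card : ℝ) ^ 2 * (B.card : ℝ) ^ 2) ^ 2 = (A.card : ℝ) ^ 4 * (B.card : ℝ) ^ 4 := by ring
      _ = _ := by rw [← this]; ring
  have hpos : 0 < (B.card : ℝ) ^ 3 * (A.card : ℝ) ^ (3 - δ) := by positivity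
  rw [h6] at h5
  have h7 : ((A.card : ℝ) ^ (1 + δ) * (B.card : ℝ)) * ((B.card : ℝ) ^ 3 * (A.card : ℝ) ^ (3 - δ)) ≤
      (C * ((A + B).card : ℝ) ^ 2) * ((B.card : ℝ) ^ 3 * (A.card : ℝ) ^ (3 - δ)) := by
    refine h5.trans (le_of_eq ?_)
    ring
  exact le_of_mul_le_mul_right h7 hpos

end Pool.Agent.Y942.SQ
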