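import Mathlib
import Pool.Agent.Y942.SQ.Descent
import Pool.Agent.Helper16.F5.LemmaP
import Pool.Agent.Helper329.SQ.Main5

/-!
Squares in `F[x]`, `F` a perfect field of characteristic `p ≥ 5`: no eleven dimensional
`{-1, 0, 1}`-grids of squares with `F`-independent directions.
-/

set_option autoImplicit false

open Polynomial

namespace Pool.Agent.Y942.SQ

open Pool.Helper329.SQ (LemmaP all_parallel pairwise_of_par TS)

/-- the key lemma, for all fields of characteristic not two or three -/
theorem lemmaP_of (F : Type) [Field F] (h2 : (2 : F) ≠ 0) (h3 : (3 : F) ≠ 0) : LemmaP F := by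
  intro f d e hsq
  have h := Pool.Helper16.F5.lemmaP h2 h3 f d e hsq
  simp only [Pool.Helper16.F5.PP] at h
  simp only [Pool.Helper329.SQ.PP]
  exact h

variable {p : ℕ} [hpf : Fact p.Prime] {F : Type} [Field F] [CharP F p] [PerfectRing F p]
  [Algebra (ZMod p) F]

omit [PerfectRing F p] [Algebra (ZMod p) F] in
theorem two_ne (hp : 5 ≤ p) : (2 : F) ≠ 0 := by
  intro h
  have h1 : ((2 : ℕ) : F) = 0 := by exact_mod_cast h
  rw [CharP.cast_eq_zero_iff F p] at h1
  have := Nat.le_of_dvd (by norm_num) h1
  omega

omit [PerfectRing F p] [Algebra (ZMod p) F] in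
theorem three_ne (hp : 5 ≤ p) : (3 : F) ≠ 0 := by
  intro h
  have h1 : ((3 : ℕ) : F) = 0 := by exact_mod_cast h
  rw [CharP.cast_eq_zero_iff F p] at h1
  have := Nat.le_of_dvd (by norm_num) h1
  omega

omit [CharP F p] [PerfectRing F p] in
theorem int_smul (s : ℤ) (g : F[X]) : ((s : ℤ) : ZMod p) • g = ((s : ℤ) : F[X]) * g := by
  rw [Algebra.smul_def]
  congr 1
  exact map_intCast _ s

omit [CharP F p] [PerfectRing F p] in
theorem sq_int {n : ℕ} (f : F[X]) (d : Fin n → F[X])
    (h : ∀ c ∈ TS n p, IsSquare (f + ∑ i, c i • d i)) :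
    ∀ s : Fin n → ℤ, (∀ i, |s i| ≤ 1) → IsSquare (f + ∑ i, (s i : F[X]) * d i) := by
  intro s hs
  have := h (fun i => (s i : ZMod p)) (fun i => Pool.Helper329.SQ.int_cast_mem (hs i))
  have e : ∑ i, ((s i : ZMod p)) • d i = ∑ i, (s i : F[X]) * d i := by
    apply Finset.sum_congr rfl
    intro i _
    exact int_smul _ _
  rw [← e]; exact this

omit [PerfectRing F p] in
theorem grid_parallel (hp : 5 ≤ p) (f : F[X])
    (d : Fin 11 → F[X]) (hli : LinearIndependent F d)
    (h : ∀ c ∈ TS 11 p, IsSquare (f + ∑ i, c i • d i)) :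
    (∀ i, f * derivative (d i) = d i * derivative f) ∧
      (∀ i j, d i * derivative (d j) = d j * derivative (d i)) := by
  have h2 : (2 : F) ≠ 0 := two_ne (p := p) hp
  have h3 : (3 : F) ≠ 0 := three_ne (p := p) hp
  have LP := lemmaP_of F h2 h3
  have hs := sq_int f d h
  by_cases hf : f = 0
  · -- use the base point `d 0`
    subst hf
    have hne : d 0 ≠ 0 := hli.ne_zero 0
    have hpar := all_parallel h2 h3 LP (n := 10) (by norm_num) (d 0) hne (fun i => d i.succ)
      (hli.comp _ (Fin.succ_injective _)) (by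
        intro s hs'
        have := hs (Fin.cons 1 s) (by
          intro i
          refine Fin.cases ?_ ?_ i
          · simp
          · intro j; simpa using hs' j)
        rw [Fin.sum_univ_succ] at this
        simpa using this)
    have hpar' : ∀ i, d 0 * derivative (d i) - d i * derivative (d 0) = 0 := by
      intro i
      refine Fin.cases ?_ ?_ i
      · ring
      · exact hpar
    refine ⟨by intro i; simp, ?_⟩
    intro i j
    exact pairwise_of_par hne (hpar' i) (hpar' j)
  · have hpar := all_parallel h2 h3 LP (n := 11) (by norm_num) f hf d hli hs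
    refine ⟨fun i => sub_eq_zero.1 (hpar i), ?_⟩
    intro i j
    exact pairwise_of_par hf (hpar i) (hpar j)

/-- **No grid of squares with eleven `F`-independent directions**. -/
theorem grid5 (hp : 5 ≤ p) (f : F[X]) (d : Fin 11 → F[X])
    (h : ∀ s : Fin 11 → ZMod p, (∀ i, s i = 0 ∨ s i = 1 ∨ s i = -1) →
      IsSquare (f + ∑ i, s i • d i)) : ¬ LinearIndependent F d := by
  intro hli
  refine descent (p := p) (F := F) (by omega) (TS 11 p) (by intro i; simp) (by
      intro i j
      by_cases hij : j = i
      · subst hij; simp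
      · simp [Pi.single_eq_of_ne hij])
    (fun d => LinearIndependent F d) ?_ ?_ ?_ ?_ _ f d rfl hli h
  · intro γ d hγ hli
    rw [Fintype.linearIndependent_iff] at hli ⊢
    intro g hg
    apply hli g
    have : ∑ i, g i • (γ * d i) = γ * ∑ i, g i • d i := by
      rw [Finset.mul_sum]
      apply Finset.sum_congr rfl
      intro i _
      rw [mul_smul_comm]
    rw [this, hg, mul_zero]
  · intro h hli
    rw [Fintype.linearIndependent_iff] at hli ⊢
    intro g hg i
    have h1 := hli (fun i => g i ^ p) (by
      have : ∑ i, (g i) ^ p • (h i ^ p) = (∑ i, g i • h i) ^ p := by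
        rw [sum_pow_char]
        apply Finset.sum_congr rfl
        intro i _
        rw [_root_.smul_pow]
      rw [this, hg, zero_pow hpf.out.ne_zero]) i
    exact pow_eq_zero_iff hpf.out.ne_zero |>.1 h1
  · intro f d hli hsq
    exact grid_parallel hp f d hli hsq
  · intro f d hli _ _ hd0
    obtain ⟨a, ha⟩ := natDegree_eq_zero.1 (hd0 0)
    obtain ⟨b, hb⟩ := natDegree_eq_zero.1 (hd0 1)
    have h01 : Function.Injective (![0, 1] : Fin 2 → Fin 11) := by
      intro x y hxy
      fin_cases x <;> fin_cases y <;> simp_all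
    have h2 := hli.comp _ h01
    have e : d ∘ (![0, 1] : Fin 2 → Fin 11) = ![d 0, d 1] := by
      funext x; fin_cases x <;> rfl
    rw [e] at h2
    have h3 := LinearIndependent.pair_iff.1 h2 b (-a) (by
      rw [← ha, ← hb, smul_eq_C_mul, smul_eq_C_mul, C_neg]; ring)
    apply hli.ne_zero 0
    have ha0 : a = 0 := neg_eq_zero.1 h3.2
    rw [← ha, ha0, C_0]

end Pool.Agent.Y942.SQ
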