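import Mathlib
import Pool.Agent.Helper999.Sq3.Core

/-!
Squares in `F[x]`, `F` a field of characteristic three: no affine `𝔽₃`-plane of nine nonzero
squares with `F`-independent directions (adapted from `Pool/Agent/Helper999/Sq3/A9.lean`, where
`F = ZMod 3`).
-/

set_option autoImplicit false

open Polynomial

namespace Pool.Agent.Y942.SQ

open Pool.Agent.Helper999.Sq3

theorem cast_fin3 {F : Type} [Field F] [CharP F 3] (s : ℤ) : ∃ i : Fin 3, (s : F) = ((i : ℕ) : F) := by
  have h3 : (3 : F) = 0 := by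
    have := CharP.cast_eq_zero F 3
    exact_mod_cast this
  refine ⟨⟨(s % 3).toNat, by omega⟩, ?_⟩
  have h1 : s = 3 * (s / 3) + s % 3 := (Int.mul_ediv_add_emod s 3).symm
  have h2 : (((s % 3).toNat : ℤ)) = s % 3 := Int.toNat_of_nonneg (Int.emod_nonneg _ (by norm_num))
  have h4 : (((s % 3).toNat : ℕ) : F) = (((s % 3 : ℤ)) : F) := by
    rw [← h2]; push_cast; rfl
  change (s : F) = (((s % 3).toNat : ℕ) : F)
  rw [h4]
  conv_lhs => rw [h1]
  push_cast
  rw [h3, zero_mul, zero_add]

theorem no_plane {F : Type} [Field F] [CharP F 3] (f d e : F[X])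
    (h : ∀ s t : ℤ, IsSquare (f + C (s : F) * d + C (t : F) * e))
    (hf' : ∀ s t : ℤ, f + C (s : F) * d + C (t : F) * e ≠ 0)
    (hd : d ≠ 0) (hpr : ∀ c : F, e ≠ C c * d) : False := by
  classical
  have he : e ≠ 0 := by
    have := hpr 0
    simpa using this
  have hp : d + e ≠ 0 := by
    intro h0
    apply hpr (-1)
    rw [C_neg, C_1]
    linear_combination h0
  have hm : d - e ≠ 0 := by
    intro h0
    apply hpr 1
    rw [C_1]
    linear_combination -h0
  have hf : ∀ s t : Fin 3, f + C ((s : ℕ) : F) * d + C ((t : ℕ) : F) * e ≠ 0 := by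
    intro s t
    have := hf' ((s : ℕ) : ℤ) ((t : ℕ) : ℤ)
    simpa using this
  obtain ⟨P, hP⟩ : ∃ P : F[X],
      P = (∏ s : Fin 3, ∏ t : Fin 3, (f + C ((s : ℕ) : F) * d + C ((t : ℕ) : F) * e)) *
        (d * e * (d + e) * (d - e)) :=
    ⟨_, rfl⟩
  have hP0 : P ≠ 0 := by
    rw [hP]
    exact mul_ne_zero (Finset.prod_ne_zero_iff.2 fun s _ =>
      Finset.prod_ne_zero_iff.2 fun t _ => hf s t)
      (mul_ne_zero (mul_ne_zero (mul_ne_zero hd he) hp) hm)
  have hinj : Function.Injective (algebraMap F (AlgebraicClosure F)) :=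
    (algebraMap F (AlgebraicClosure F)).injective
  have hchar : CharP (AlgebraicClosure F) 3 := charP_of_injective_algebraMap hinj 3
  have hPm : P.map (algebraMap F (AlgebraicClosure F)) ≠ 0 :=
    (Polynomial.map_ne_zero_iff hinj).2 hP0
  have : Infinite (AlgebraicClosure F) := IsAlgClosed.instInfinite
  obtain ⟨x0, hx0⟩ : ∃ x0 : AlgebraicClosure F,
      eval x0 (P.map (algebraMap F (AlgebraicClosure F))) ≠ 0 := by
    by_contra hc
    apply hPm
    apply Polynomial.funext
    intro x
    rw [eval_zero]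
    by_contra hx
    exact hc ⟨x, hx⟩
  have hdiv : ∀ l : F[X], l ∣ P →
      eval x0 (l.map (algebraMap F (AlgebraicClosure F))) ≠ 0 := by
    rintro l ⟨m, hlm⟩ h0
    apply hx0
    rw [hlm, Polynomial.map_mul, eval_mul, h0, zero_mul]
  obtain ⟨n, hn⟩ : ∃ n, n = f.natDegree + d.natDegree + e.natDegree := ⟨_, rfl⟩
  have hnf : ∀ s t : F, (f + C s * d + C t * e).natDegree ≤ n := by
    intro s t
    refine (natDegree_add_le _ _).trans (max_le ((natDegree_add_le _ _).trans (max_le ?_ ?_)) ?_)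
    · omega
    · refine (natDegree_C_mul_le _ _).trans ?_
      omega
    · refine (natDegree_C_mul_le _ _).trans ?_
      omega
  have hform : ∀ s t : ℤ, TT (2 * n) x0 f + C (s : AlgebraicClosure F) * TT (2 * n) x0 d +
      C (t : AlgebraicClosure F) * TT (2 * n) x0 e =
      TT (2 * n) x0 (f + C (s : F) * d + C (t : F) * e) := by
    intro s t
    have q1 : ∀ r : ℤ, (algebraMap F (AlgebraicClosure F)) (r : F) =
        ((r : ℤ) : AlgebraicClosure F) := fun r => map_intCast _ r
    rw [TT_add, TT_add, TT_C_mul, TT_C_mul, q1, q1]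
  have dP : (∏ s : Fin 3, ∏ t : Fin 3, (f + C ((s : ℕ) : F) * d + C ((t : ℕ) : F) * e)) ∣ P := by
    rw [hP]; exact dvd_mul_right _ _
  have dP2 : (d * e * (d + e) * (d - e)) ∣ P := by
    rw [hP]; exact dvd_mul_left _ _
  have dsys' : ∀ s t : Fin 3, (f + C ((s : ℕ) : F) * d + C ((t : ℕ) : F) * e) ∣ P := by
    intro s t
    have h1 : (f + C ((s : ℕ) : F) * d + C ((t : ℕ) : F) * e) ∣
        ∏ t' : Fin 3, (f + C ((s : ℕ) : F) * d + C ((t' : ℕ) : F) * e) :=
      Finset.dvd_prod_of_mem (fun t' : Fin 3 => f + C ((s : ℕ) : F) * d + C ((t' : ℕ) : F) * e)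
        (Finset.mem_univ t)
    have h2 : (∏ t' : Fin 3, (f + C ((s : ℕ) : F) * d + C ((t' : ℕ) : F) * e)) ∣
        ∏ s : Fin 3, ∏ t : Fin 3, (f + C ((s : ℕ) : F) * d + C ((t : ℕ) : F) * e) :=
      Finset.dvd_prod_of_mem (fun s' : Fin 3 =>
        ∏ t' : Fin 3, (f + C ((s' : ℕ) : F) * d + C ((t' : ℕ) : F) * e))
        (Finset.mem_univ s)
    exact (h1.trans h2).trans dP
  have dsys : ∀ s t : ℤ, (f + C (s : F) * d + C (t : F) * e) ∣ P := by
    intro s t
    obtain ⟨i, hi⟩ := cast_fin3 (F := F) s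
    obtain ⟨j, hj⟩ := cast_fin3 (F := F) t
    rw [hi, hj]
    exact dsys' i j
  refine no_sys n (TT (2 * n) x0 f) (TT (2 * n) x0 d) (TT (2 * n) x0 e) ⟨?_, ?_, ?_, ?_, ?_, ?_, ?_⟩
  · intro s t
    rw [hform]
    exact TT_square x0 n _ (hnf _ _) (h _ _)
  · intro s t
    rw [hform]
    exact TT_degree (2 * n) x0 _ ((hnf _ _).trans (by omega)) (hdiv _ (dsys _ _))
  · refine TT_degree (2 * n) x0 _ (by omega) (hdiv _ (Dvd.dvd.trans ?_ dP2))
    exact ⟨e * (d + e) * (d - e), by ring⟩
  · refine TT_degree (2 * n) x0 _ (by omega) (hdiv _ (Dvd.dvd.trans ?_ dP2))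
    exact ⟨d * (d + e) * (d - e), by ring⟩
  · rw [← TT_add]
    refine TT_degree (2 * n) x0 _ ?_ (hdiv _ (Dvd.dvd.trans ?_ dP2))
    · exact (natDegree_add_le _ _).trans (max_le (by omega) (by omega))
    · exact ⟨d * e * (d - e), by ring⟩
  · rw [← TT_sub]
    refine TT_degree (2 * n) x0 _ ?_ (hdiv _ (Dvd.dvd.trans ?_ dP2))
    · exact (natDegree_sub_le _ _).trans (max_le (by omega) (by omega))
    · exact ⟨d * e * (d + e), by ring⟩
  · intro c hc
    have h1 := TT_inj (2 * n) x0 hc
    obtain ⟨i, hi⟩ : ∃ i, d.coeff i ≠ 0 := by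
      by_contra hc'
      apply hd
      ext i
      by_contra h2
      exact hc' ⟨i, by simpa using h2⟩
    have h2 := congrArg (fun p => coeff p i) h1
    simp only [coeff_map, coeff_C_mul] at h2
    have h3 : c = algebraMap F (AlgebraicClosure F) (e.coeff i / d.coeff i) := by
      rw [map_div₀, h2, mul_div_cancel_right₀]
      intro h4
      exact hi (hinj (by rw [h4, map_zero]))
    have h4 : e = C (e.coeff i / d.coeff i) * d := by
      apply Polynomial.map_injective _ hinj
      rw [h1, Polynomial.map_mul, Polynomial.map_C, ← h3]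
    exact hpr _ h4

/-- **No grid of squares with three `F`-independent directions** in characteristic three. -/
theorem grid3 {F : Type} [Field F] [CharP F 3] (f : F[X]) (d : Fin 3 → F[X])
    (h : ∀ s : Fin 3 → ℤ, (∀ i, |s i| ≤ 1) → IsSquare (f + ∑ i, C ((s i : ℤ) : F) * d i)) :
    ¬ LinearIndependent F d := by
  intro hli
  -- all coefficients can be reduced to absolute value at most one
  have red : ∀ s : ℤ, ∃ s' : ℤ, |s'| ≤ 1 ∧ (s : F) = (s' : F) := by
    intro s
    have h3 : (3 : F) = 0 := by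
      have := CharP.cast_eq_zero F 3
      exact_mod_cast this
    obtain ⟨i, hi⟩ := cast_fin3 (F := F) s
    fin_cases i
    · exact ⟨0, by norm_num, by simpa using hi⟩
    · exact ⟨1, by norm_num, by simpa using hi⟩
    · refine ⟨-1, by norm_num, ?_⟩
      rw [hi]
      push_cast
      linear_combination h3
  have hall : ∀ s : Fin 3 → ℤ, IsSquare (f + ∑ i, C ((s i : ℤ) : F) * d i) := by
    intro s
    choose s' hs' he using fun i => red (s i)
    have := h s' hs'
    simpa only [he] using this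
  have hind : ∀ a b c : F, C a * d 0 + C b * d 1 + C c * d 2 = 0 → a = 0 ∧ b = 0 ∧ c = 0 := by
    intro a b c habc
    have h1 := Fintype.linearIndependent_iff.1 hli ![a, b, c] (by
      rw [Fin.sum_univ_three]
      simpa [smul_eq_C_mul] using habc)
    exact ⟨by simpa using h1 0, by simpa using h1 1, by simpa using h1 2⟩
  have hd0 : d 0 ≠ 0 := hli.ne_zero 0
  have hpr : ∀ c : F, d 1 ≠ C c * d 0 := by
    intro c hc
    have := hind (-c) 1 0 (by rw [C_neg, C_1, C_0, hc]; ring)
    exact one_ne_zero this.2.1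
  have hsq3 : ∀ s t u : ℤ, IsSquare (f + C (s : F) * d 0 + C (t : F) * d 1 + C (u : F) * d 2) := by
    intro s t u
    have := hall ![s, t, u]
    rw [Fin.sum_univ_three] at this
    convert this using 1
    simp
    ring
  -- a plane in which no square vanishes
  by_cases hz : ∃ s t : ℤ, f + C (s : F) * d 0 + C (t : F) * d 1 = 0
  · obtain ⟨s0, t0, h0⟩ := hz
    refine no_plane (f + d 2) (d 0) (d 1) ?_ ?_ hd0 hpr
    · intro s t
      have := hsq3 s t 1
      convert this using 1
      simp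
      ring
    · intro s t h1
      have h2 := hind ((s : F) - s0) ((t : F) - t0) 1 (by
        rw [C_sub, C_sub, C_1]
        linear_combination h1 - h0)
      exact one_ne_zero h2.2.2
  · push Not at hz
    refine no_plane f (d 0) (d 1) ?_ hz hd0 hpr
    intro s t
    have := hsq3 s t 0
    simpa using this

end Pool.Agent.Y942.SQ
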