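import Mathlib
import Pool.Agent.Y942.SQ.Grid5
import Pool.Agent.Y942.SQ.Plane3
import Pool.Agent.Helper999.Sq3.Growth

/-!
Growth of large finite sets of squares in `F[x]`, `F` a finite field of odd characteristic.
-/

set_option autoImplicit false

open Polynomial
open scoped Pointwise

namespace Pool.Agent.Y942.SQ

open Pool.Agent.Helper999.Sq3

/-- from many `𝔽_p`-independent vectors one can choose `m + 1` vectors which are `F`-independent -/
theorem exists_indep {p : ℕ} [Fact p.Prime] {F : Type} [Field F] [Algebra (ZMod p) F]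
    [Module.Finite (ZMod p) F] {V : Type} [AddCommGroup V] [Module F V] [Module (ZMod p) V]
    [IsScalarTower (ZMod p) F V] (m : ℕ) {K : ℕ} (hK : m * Module.finrank (ZMod p) F < K)
    (d : Fin K → V) (hd : LinearIndependent (ZMod p) d) :
    ∃ ι : Fin (m + 1) → Fin K, Function.Injective ι ∧ LinearIndependent F (d ∘ ι) := by
  classical
  obtain ⟨κ, a, ha, hspan, hli⟩ := exists_linearIndependent' F d
  have hfin : Finite κ := Finite.of_injective a ha
  have : Fintype κ := Fintype.ofFinite κ
  obtain ⟨W, hW⟩ : ∃ W : Submodule F V, W = Submodule.span F (Set.range d) := ⟨_, rfl⟩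
  have hWf : Module.Finite F W := by
    rw [hW]
    exact Module.Finite.span_of_finite F (Set.finite_range d)
  have hW2 : Module.finrank F W = Fintype.card κ := by
    rw [hW, ← hspan]
    exact finrank_span_eq_card hli
  have hWp : Module.Finite (ZMod p) W := Module.Finite.trans F W
  have hmul := Module.finrank_mul_finrank (ZMod p) F W
  obtain ⟨d', hd'⟩ : ∃ d' : Fin K → W, ∀ i, ((d' i : W) : V) = d i :=
    ⟨fun i => ⟨d i, by rw [hW]; exact Submodule.subset_span ⟨i, rfl⟩⟩, fun i => rfl⟩
  have hli' : LinearIndependent (ZMod p) d' := by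
    apply LinearIndependent.of_comp (W.subtype.restrictScalars (ZMod p))
    have : (W.subtype.restrictScalars (ZMod p) : W →ₗ[ZMod p] V) ∘ d' = d := by
      funext i
      exact hd' i
    rw [this]
    exact hd
  have hle := hli'.fintype_card_le_finrank
  rw [Fintype.card_fin, ← hmul, hW2] at hle
  have hm : m + 1 ≤ Fintype.card κ := by
    by_contra hcon
    have h1 : Fintype.card κ ≤ m := by omega
    have h2 : Module.finrank (ZMod p) F * Fintype.card κ ≤ Module.finrank (ZMod p) F * m :=
      Nat.mul_le_mul_left _ h1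
    rw [Nat.mul_comm m] at hK
    omega
  obtain ⟨emb⟩ : Nonempty (Fin (m + 1) ↪ κ) := by
    apply Function.Embedding.nonempty_of_card_le
    simpa using hm
  exact ⟨a ∘ emb, ha.comp emb.injective, hli.comp emb emb.injective⟩

/-- restriction of a grid to some of its directions -/
theorem grid_sub {p : ℕ} [Fact p.Prime] {V : Type} [AddCommGroup V] [Module (ZMod p) V] {P : V → Prop}
    {K m : ℕ} (x : V) (d : Fin K → V)
    (h : ∀ s : Fin K → ZMod p, (∀ i, s i = 0 ∨ s i = 1 ∨ s i = -1) → P (x + ∑ i, s i • d i))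
    (ι : Fin m → Fin K) (hι : Function.Injective ι) (s : Fin m → ZMod p)
    (hs : ∀ i, s i = 0 ∨ s i = 1 ∨ s i = -1) : P (x + ∑ l, s l • d (ι l)) := by
  have key := h (Function.extend ι s 0) (by
    intro i
    by_cases hi : ∃ l, ι l = i
    · obtain ⟨l, rfl⟩ := hi
      rw [hι.extend_apply]; exact hs l
    · rw [Function.extend_apply' _ _ _ hi]; simp)
  have e : ∑ l, s l • d (ι l) = ∑ i, Function.extend ι s 0 i • d i := by
    apply Fintype.sum_of_injective ι hι
    · intro i hi
      have hi' : ¬ ∃ l, ι l = i := by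
        rintro ⟨l, hl⟩; exact hi ⟨l, hl⟩
      rw [Function.extend_apply' _ _ _ hi']; simp
    · intro l
      rw [hι.extend_apply]
  rw [e]; exact key

/-- **No large grids of squares.** -/
theorem noGrid {p : ℕ} [Fact p.Prime] (hp2 : p ≠ 2) {F : Type} [Field F] [Finite F] [CharP F p]
    [Algebra (ZMod p) F] :
    ¬ HasGrid p (10 * Module.finrank (ZMod p) F + 1) {f : F[X] | IsSquare f} := by
  rintro ⟨x, d, hd, h⟩
  have hfin : Module.Finite (ZMod p) F := Module.Finite.of_finite
  obtain ⟨ι, hι, hli⟩ := exists_indep (p := p) (F := F) 10 (Nat.lt_succ_self _) d hd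
  rcases Nat.lt_or_ge p 5 with h5 | h5
  · have h3 : p = 3 := by
      have h2 := (Fact.out : p.Prime).two_le
      have h4 : p ≠ 4 := by
        rintro rfl
        exact absurd (Fact.out : (4 : ℕ).Prime) (by norm_num)
      omega
    subst h3
    have hinj : Function.Injective (Fin.castLE (by norm_num : 3 ≤ 11)) := Fin.castLE_injective _
    refine grid3 x (d ∘ ι ∘ Fin.castLE (by norm_num : 3 ≤ 11)) ?_ (hli.comp _ hinj)
    intro s hs
    have := grid_sub (P := fun f : F[X] => IsSquare f) x d h (ι ∘ Fin.castLE (by norm_num : 3 ≤ 11))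
      (hι.comp hinj) (fun i => ((s i : ℤ) : ZMod 3))
      (fun i => Pool.Helper329.SQ.int_cast_mem (hs i))
    convert this using 3 with i
    rw [int_smul]
    simp
  · exact grid5 h5 x (d ∘ ι) (fun s hs => grid_sub (P := fun f : F[X] => IsSquare f) x d h ι hι s hs)
      hli

/-- a set with `|A + A| ≤ |A|` and at least `p ^ K` elements contains a grid -/
theorem coset_grid {p : ℕ} [Fact p.Prime] {V : Type} [AddCommGroup V] [Module (ZMod p) V]
    [DecidableEq V] (A : Finset V) (K : ℕ) (hK : p ^ K ≤ A.card) (h : (A + A).card ≤ A.card) :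
    HasGrid p K (A : Set V) := by
  classical
  have hp1 : 1 < p := (Fact.out : p.Prime).one_lt
  obtain ⟨a0, ha0⟩ : A.Nonempty := Finset.card_pos.1 (lt_of_lt_of_le (by positivity) hK)
  let H : Submodule (ZMod p) V :=
    { carrier := {w | a0 + w ∈ A}
      zero_mem' := by
        change a0 + 0 ∈ A
        rw [add_zero]; exact ha0
      add_mem' := by
        intro u v hu hv
        have := coset_add A h a0 ha0 _ hu _ hv
        have e : a0 + u + (a0 + v) - a0 = a0 + (u + v) := by abel
        rw [e] at this
        exact this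
      smul_mem' := by
        intro t w hw
        exact coset_smul A h a0 ha0 a0 w ha0 hw t }
  have hmem : ∀ w : V, w ∈ H ↔ a0 + w ∈ A := fun w => Iff.rfl
  let e : H ≃ A :=
    { toFun := fun w => ⟨a0 + w.1, w.2⟩
      invFun := fun a => ⟨a.1 - a0, by
        rw [hmem]
        have : a0 + (a.1 - a0) = a.1 := by abel
        rw [this]; exact a.2⟩
      left_inv := fun w => by
        apply Subtype.ext
        change a0 + w.1 - a0 = w.1
        abel
      right_inv := fun a => by
        apply Subtype.ext
        change a0 + (a.1 - a0) = a.1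
        abel }
  have hfinH : Finite H := Finite.of_equiv A e.symm
  have hcard : Nat.card H = A.card := by
    rw [Nat.card_congr e, Nat.card_eq_fintype_card, Fintype.card_coe]
  have hmf : Module.Finite (ZMod p) H := Module.Finite.of_finite
  have hpow : Nat.card H = p ^ Module.finrank (ZMod p) H := by
    have := Module.natCard_eq_pow_finrank (K := ZMod p) (V := H)
    rw [this, Nat.card_zmod]
  have hKf : K ≤ Module.finrank (ZMod p) H := by
    rw [← hcard, hpow] at hK
    exact (Nat.pow_le_pow_iff_right hp1).1 hK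
  obtain ⟨b, hb⟩ : ∃ b : Module.Basis (Fin (Module.finrank (ZMod p) H)) (ZMod p) H, b = Module.finBasis (ZMod p) H :=
    ⟨_, rfl⟩
  refine ⟨a0, fun i => ((b (Fin.castLE hKf i) : H) : V), ?_, ?_⟩
  · have h1 : LinearIndependent (ZMod p) (fun i => b (Fin.castLE hKf i)) :=
      b.linearIndependent.comp _ (Fin.castLE_injective _)
    exact h1.map' H.subtype (Submodule.ker_subtype H)
  · intro s _
    have h1 : ∑ i, s i • ((b (Fin.castLE hKf i) : H) : V) ∈ H :=
      Submodule.sum_mem _ fun i _ => Submodule.smul_mem _ _ (b (Fin.castLE hKf i)).2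
    exact (hmem _).1 h1

theorem hasGrid_mono {p K : ℕ} {V : Type} [AddCommGroup V] [Module (ZMod p) V] {A B : Set V}
    (h : HasGrid p K A) (hAB : A ⊆ B) : HasGrid p K B := by
  obtain ⟨x, d, hd, hx⟩ := h
  exact ⟨x, d, hd, fun s hs => hAB (hx s hs)⟩

/-- **Growth of large sets of squares of polynomials over a finite field.** -/
theorem growth_large (F : Type) [Field F] [Finite F] (hF : ringChar F ≠ 2) [DecidableEq F[X]] :
    ∃ (ε : ℝ) (N0 : ℕ), 0 < ε ∧ ∀ A : Finset F[X], (∀ f ∈ A, IsSquare f) → N0 ≤ A.card →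
      (A.card : ℝ) ^ (1 + ε) ≤ ((A + A).card : ℝ) := by
  obtain ⟨p, hp⟩ : ∃ p, p = ringChar F := ⟨_, rfl⟩
  rw [← hp] at hF
  have hchar : CharP F p := by rw [hp]; infer_instance
  have hprime : Fact p.Prime := ⟨by
    rcases CharP.char_is_prime_or_zero F p with h | h
    · exact h
    · exfalso
      subst h
      have : CharZero F := CharP.charP_to_charZero F
      exact not_injective_infinite_finite (fun n : ℕ => (n : F)) Nat.cast_injective⟩
  let : Algebra (ZMod p) F := ZMod.algebra F p
  obtain ⟨K, hK⟩ : ∃ K, K = 10 * Module.finrank (ZMod p) F + 1 := ⟨_, rfl⟩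
  have hno : ¬ HasGrid p K {f : F[X] | IsSquare f} := by
    rw [hK]; exact noGrid hF
  obtain ⟨ε, hε, h⟩ := growth p hF K {f : F[X] | IsSquare f} (fun n => p ^ K ≤ n) hno (by
    intro A hA hN _
    by_contra hcon
    push Not at hcon
    exact hno (hasGrid_mono (coset_grid A K hN hcon) hA))
  exact ⟨ε, p ^ K, hε, fun A hA hN => h A hA hN⟩

end Pool.Agent.Y942.SQ
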