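import Mathlib
import Pool.Agent.Y942.SQ.Grow

/-!
`k`-th powers in `F[x]`: no two dimensional grids for odd `k ≥ 3` prime to the characteristic.
-/

set_option autoImplicit false

open Polynomial
open scoped Pointwise

namespace Pool.Agent.Y942.SQ

open Pool.Agent.Helper999.Sq3

/-- three `k`-th powers in arithmetic progression are proportional -/
theorem ap_prop {F : Type} [Field F] (h2 : (2 : F) ≠ 0) {k : ℕ} (hk : 3 ≤ k) (hkF : (k : F) ≠ 0)
    (a b c : F[X]) (h : a ^ k + c ^ k = 2 * b ^ k) :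
    ∃ u v : F, (u ≠ 0 ∨ v ≠ 0) ∧ u • a ^ k + v • b ^ k = 0 := by
  classical
  have hk0 : k ≠ 0 := by omega
  by_cases hb : b = 0
  · exact ⟨0, 1, Or.inr one_ne_zero, by rw [hb, zero_pow hk0]; simp⟩
  by_cases ha : a = 0
  · exact ⟨1, 0, Or.inl one_ne_zero, by rw [ha, zero_pow hk0]; simp⟩
  by_cases hc : c = 0
  · refine ⟨1, -2, Or.inl one_ne_zero, ?_⟩
    rw [hc, zero_pow hk0, add_zero] at h
    rw [h, one_smul, neg_smul, ← C_mul', show (C (2 : F) : F[X]) = 2 from C_ofNat 2]
    ring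
  obtain ⟨g, hg⟩ : ∃ g, g = EuclideanDomain.gcd a c := ⟨_, rfl⟩
  have hga : g ∣ a := by rw [hg]; exact EuclideanDomain.gcd_dvd_left a c
  have hgc : g ∣ c := by rw [hg]; exact EuclideanDomain.gcd_dvd_right a c
  obtain ⟨a', ha'⟩ := hga
  obtain ⟨c', hc'⟩ := hgc
  have hg0 : g ≠ 0 := by
    rintro h0
    rw [h0, zero_mul] at ha'
    exact ha ha'
  have hcop : IsCoprime a' c' := by
    have h1 : g = a * EuclideanDomain.gcdA a c + c * EuclideanDomain.gcdB a c := by
      rw [hg]; exact EuclideanDomain.gcd_eq_gcd_ab a c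
    refine ⟨EuclideanDomain.gcdA a c, EuclideanDomain.gcdB a c, ?_⟩
    apply mul_left_cancel₀ hg0
    calc g * (EuclideanDomain.gcdA a c * a' + EuclideanDomain.gcdB a c * c')
        = (g * a') * EuclideanDomain.gcdA a c + (g * c') * EuclideanDomain.gcdB a c := by ring
      _ = a * EuclideanDomain.gcdA a c + c * EuclideanDomain.gcdB a c := by rw [← ha', ← hc']
      _ = g := h1.symm
      _ = g * 1 := (mul_one g).symm
  have hunit : IsUnit (2 : F[X]) := by
    have : (2 : F[X]) = C (2 : F) := (C_ofNat 2).symm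
    rw [this]
    exact isUnit_C.2 (isUnit_iff_ne_zero.2 h2)
  have hgb : g ∣ b := by
    have h1 : g ^ k ∣ 2 * b ^ k := by
      rw [← h, ha', hc', mul_pow, mul_pow, ← mul_add]
      exact dvd_mul_right _ _
    have h2 : g ^ k ∣ b ^ k := (IsUnit.dvd_mul_left hunit).1 h1
    exact (UniqueFactorizationMonoid.pow_dvd_pow_iff_dvd hk0).1 h2
  obtain ⟨b', hb'⟩ := hgb
  have heq : a' ^ k + c' ^ k = 2 * b' ^ k := by
    apply mul_left_cancel₀ (pow_ne_zero k hg0)
    calc g ^ k * (a' ^ k + c' ^ k) = (g * a') ^ k + (g * c') ^ k := by rw [mul_pow, mul_pow]; ring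
      _ = 2 * (g * b') ^ k := by rw [← ha', ← hc', ← hb', h]
      _ = g ^ k * (2 * b' ^ k) := by rw [mul_pow]; ring
  have ha'0 : a' ≠ 0 := by rintro h0; exact ha (by rw [ha', h0, mul_zero])
  have hb'0 : b' ≠ 0 := by rintro h0; exact hb (by rw [hb', h0, mul_zero])
  have hc'0 : c' ≠ 0 := by rintro h0; exact hc (by rw [hc', h0, mul_zero])
  have hineq : k * k + k * k + k * k ≤ k * k * k := by
    have : 3 * (k * k) ≤ k * (k * k) := Nat.mul_le_mul_right _ hk
    calc k * k + k * k + k * k = 3 * (k * k) := by ring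
      _ ≤ k * (k * k) := this
      _ = k * k * k := by ring
  obtain ⟨hda, hdc, hdb⟩ := Polynomial.flt_catalan hk0 hk0 hk0 hineq hkF hkF hkF ha'0 hc'0 hb'0
    hcop (u := (1 : F)) (v := 1) (w := -2) one_ne_zero one_ne_zero (neg_ne_zero.2 h2) (by
      rw [C_neg, show (C (2 : F) : F[X]) = 2 from C_ofNat 2, C_1, one_mul, one_mul, heq]
      ring)
  obtain ⟨α, hα⟩ := natDegree_eq_zero.1 hda
  obtain ⟨β, hβ⟩ := natDegree_eq_zero.1 hdb
  have hβ0 : β ≠ 0 := by
    rintro h0
    rw [h0, C_0] at hβ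
    exact hb'0 hβ.symm
  refine ⟨β ^ k, -α ^ k, Or.inl (pow_ne_zero k hβ0), ?_⟩
  rw [ha', hb', ← hα, ← hβ, smul_eq_C_mul, smul_eq_C_mul, mul_pow, mul_pow, C_neg, C_pow, C_pow]
  ring

theorem neg_one_case {p : ℕ} [Fact p.Prime] : ((-1 : ZMod p) = 0 ∨ (-1 : ZMod p) = 1 ∨ (-1 : ZMod p) = -1) :=
  Or.inr (Or.inr rfl)

/-- no grids with two `F`-independent directions in the set of `k`-th powers -/
theorem grid2 {p : ℕ} [Fact p.Prime] {F : Type} [Field F] [Algebra (ZMod p) F]
    (h2 : (2 : F) ≠ 0) {k : ℕ} (hk : 3 ≤ k) (hkF : (k : F) ≠ 0) (f : F[X]) (d : Fin 2 → F[X])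
    (h : ∀ s : Fin 2 → ZMod p, (∀ i, s i = 0 ∨ s i = 1 ∨ s i = -1) →
      ∃ g : F[X], f + ∑ i, s i • d i = g ^ k) : ¬ LinearIndependent F d := by
  intro hli
  have hli' := LinearIndependent.pair_iff.1 (by
    have e : d = ![d 0, d 1] := by funext x; fin_cases x <;> rfl
    rw [e] at hli
    exact hli)
  -- the basic step
  have step : ∀ x y : F[X], (∃ g : F[X], x - y = g ^ k) → (∃ g : F[X], x = g ^ k) →
      (∃ g : F[X], x + y = g ^ k) → ∃ u v : F, (u ≠ 0 ∨ v ≠ 0) ∧ u • (x - y) + v • x = 0 := by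
    rintro x y ⟨a, ha⟩ ⟨b, hb⟩ ⟨c, hc⟩
    obtain ⟨u, v, huv, h⟩ := ap_prop h2 hk hkF a b c (by rw [← ha, ← hb, ← hc]; ring)
    exact ⟨u, v, huv, by rw [ha, hb]; exact h⟩
  have h00 := h ![0, 0] (by intro i; fin_cases i <;> simp)
  have h10 := h ![1, 0] (by intro i; fin_cases i <;> simp)
  have h20 := h ![-1, 0] (by intro i; fin_cases i <;> simp)
  have h01 := h ![0, 1] (by intro i; fin_cases i <;> simp)
  have h02 := h ![0, -1] (by intro i; fin_cases i <;> simp)
  have h11 := h ![1, 1] (by intro i; fin_cases i <;> simp)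
  have h12 := h ![1, -1] (by intro i; fin_cases i <;> simp)
  simp only [Fin.sum_univ_two, Matrix.cons_val_zero, Matrix.cons_val_one, zero_smul, one_smul,
    neg_smul, add_zero, zero_add] at h00 h10 h20 h01 h02 h11 h12
  rw [← sub_eq_add_neg] at h20 h02
  rw [← sub_eq_add_neg] at h12
  by_cases hf : f = 0
  · subst hf
    rw [zero_add] at h10 h11 h12
    obtain ⟨u, v, huv, h⟩ := step (d 0) (d 1) h12 h10 h11
    have h3 := hli' (u + v) (-u) (by rw [← h]; module)
    have hu : u = 0 := neg_eq_zero.1 h3.2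
    have hv : v = 0 := by
      have := h3.1
      rw [hu, zero_add] at this
      exact this
    rcases huv with h | h
    · exact h hu
    · exact h hv
  · obtain ⟨u, v, huv, h⟩ := step f (d 0) h20 h00 h10
    obtain ⟨u', v', huv', h'⟩ := step f (d 1) h02 h00 h01
    have hu : u ≠ 0 := by
      rintro rfl
      rw [zero_smul, zero_add] at h
      rcases huv with h3 | h3
      · exact h3 rfl
      · exact hf ((smul_eq_zero.1 h).resolve_left h3)
    have hu' : u' ≠ 0 := by
      rintro rfl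
      rw [zero_smul, zero_add] at h'
      rcases huv' with h3 | h3
      · exact h3 rfl
      · exact hf ((smul_eq_zero.1 h').resolve_left h3)
    have e1 : u • d 0 = (u + v) • f := by
      rw [← sub_eq_zero, ← neg_eq_zero, ← h]; module
    have e2 : u' • d 1 = (u' + v') • f := by
      rw [← sub_eq_zero, ← neg_eq_zero, ← h']; module
    have h3 := hli' ((u' + v') * u) (-((u + v) * u')) (by
      rw [neg_smul, mul_smul, mul_smul, e1, e2]; module)
    have hv' : u' + v' = 0 := (mul_eq_zero.1 h3.1).resolve_right hu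
    rw [hv', zero_smul] at e2
    have hd1 : d 1 = 0 := (smul_eq_zero.1 e2).resolve_left hu'
    have h4 := hli' 0 1 (by rw [hd1]; simp)
    exact one_ne_zero h4.2

/-- **No large grids of `k`-th powers.** -/
theorem noGrid_pow {p : ℕ} [Fact p.Prime] (hp2 : p ≠ 2) {F : Type} [Field F] [Finite F] [CharP F p]
    [Algebra (ZMod p) F] {k : ℕ} (hk : 2 ≤ k) (hpk : ¬ p ∣ k) :
    ¬ HasGrid p (10 * Module.finrank (ZMod p) F + 1) {f : F[X] | ∃ g : F[X], f = g ^ k} := by
  intro hgrid
  have h2 : (2 : F) ≠ 0 := by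
    intro h
    have h1 : ((2 : ℕ) : F) = 0 := by exact_mod_cast h
    rw [CharP.cast_eq_zero_iff F p] at h1
    have h3 := Nat.le_of_dvd (by norm_num) h1
    have h4 := (Fact.out : p.Prime).two_le
    omega
  rcases Nat.even_or_odd k with he | ho
  · apply noGrid (F := F) hp2
    refine hasGrid_mono hgrid ?_
    rintro f ⟨g, rfl⟩
    exact he.isSquare_pow g
  · have hk3 : 3 ≤ k := by
      obtain ⟨m, hm⟩ := ho
      omega
    have hkF : (k : F) ≠ 0 := by
      intro h
      exact hpk ((CharP.cast_eq_zero_iff F p k).1 h)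
    obtain ⟨x, d, hd, h⟩ := hgrid
    have hfin : Module.Finite (ZMod p) F := Module.Finite.of_finite
    obtain ⟨ι, hι, hli⟩ := exists_indep (p := p) (F := F) 1 (by omega) d hd
    exact grid2 (p := p) h2 hk3 hkF x (d ∘ ι)
      (fun s hs => grid_sub (P := fun f : F[X] => ∃ g : F[X], f = g ^ k) x d h ι hι s hs) hli

end Pool.Agent.Y942.SQ
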