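import Mathlib
import Pool.Agent.H217R3.AK.Bsg

/-!
Polynomial growth of all large subsets of a set bounds the additive energy.
-/

set_option autoImplicit false

open Finset
open scoped Pointwise

namespace Pool.Agent.Y942.SQ

/-- if all large finite subsets of `P` satisfy `|A + A| ≥ |A| ^ (1 + ε)`, then the additive energy
of all finite subsets is at most `C |A| ^ (3 - δ)`, with `δ` and `C` depending on `ε` and on the
meaning of large only -/
theorem energy_of_growth (ε : ℝ) (hε : 0 < ε) (N0 : ℕ) :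
    ∃ δ C : ℝ, 0 < δ ∧ δ ≤ 1 ∧ 1 ≤ C ∧ ∀ (G : Type) [AddCommGroup G] [DecidableEq G] (P : G → Prop),
      (∀ A : Finset G, (∀ x ∈ A, P x) → N0 ≤ A.card →
        (A.card : ℝ) ^ (1 + ε) ≤ ((A + A).card : ℝ)) →
      ∀ A : Finset G, (∀ x ∈ A, P x) →
        ((A.addEnergy A : ℕ) : ℝ) ≤ C * (A.card : ℝ) ^ (3 - δ) := by
  obtain ⟨ε1, hε1⟩ : ∃ x : ℝ, x = min ε 1 := ⟨_, rfl⟩
  have e0 : 0 < ε1 := by rw [hε1]; exact lt_min hε one_pos
  have e1 : ε1 ≤ 1 := by rw [hε1]; exact min_le_right _ _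
  have e2 : ε1 ≤ ε := by rw [hε1]; exact min_le_left _ _
  have hN00 : (0 : ℝ) ≤ N0 := Nat.cast_nonneg _
  refine ⟨ε1 / 21, 8 * (N0 + 1), by positivity, by linarith, by linarith, ?_⟩
  intro G _ _ P h A hA
  rcases A.eq_empty_or_nonempty with rfl | hne
  · simp only [addEnergy_empty_left, Nat.cast_zero, card_empty]
    positivity
  obtain ⟨n, hn⟩ : ∃ x : ℝ, x = (A.card : ℝ) := ⟨_, rfl⟩
  have hn1 : 1 ≤ n := by rw [hn]; exact_mod_cast hne.card_pos
  obtain ⟨E, hE⟩ : ∃ x : ℝ, x = ((A.addEnergy A : ℕ) : ℝ) := ⟨_, rfl⟩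
  have hE0 : 0 < E := by rw [hE]; exact_mod_cast addEnergy_self_pos hne
  obtain ⟨K, hK⟩ : ∃ x : ℝ, x = n ^ 3 / E := ⟨_, rfl⟩
  have hK0 : 0 < K := by rw [hK]; positivity
  have hKE : K * E = n ^ 3 := by rw [hK]; field_simp
  rw [← hn, ← hE]
  -- the claim `n ^ δ ≤ 8 (N0 + 1) K`
  have claim : n ^ (ε1 / 21) ≤ 8 * (N0 + 1) * K := by
    obtain ⟨B, hBA, hBne, h1, h2⟩ := Pool.Agent.H217R3.AK.bsg A hne K hK0 (by
      rw [← hn, ← hE, hKE])
    rw [← hn] at h1
    obtain ⟨b, hb⟩ : ∃ x : ℝ, x = (B.card : ℝ) := ⟨_, rfl⟩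
    have hb1 : 1 ≤ b := by rw [hb]; exact_mod_cast hBne.card_pos
    have hb0 : 0 < b := by linarith
    rw [← hb] at h1 h2
    obtain ⟨L, hL⟩ : ∃ x : ℝ, x = 8 * K := ⟨_, rfl⟩
    have hL0 : 0 < L := by rw [hL]; positivity
    have h3 : n ≤ L * b := by rw [hL]; exact h1
    have hBB : b ≤ ((B - B).card : ℝ) := by
      rw [hb]
      obtain ⟨x, hx⟩ := hBne
      have : (B.image fun y => y - x).card = B.card :=
        card_image_of_injective _ (fun a c hac => by simpa using hac)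
      rw [← this]
      exact_mod_cast card_le_card (image_subset_iff.2 fun y hy => sub_mem_sub hy hx)
    have h4 : ((B - B).card : ℝ) ≤ L ^ 10 * b := by
      refine h2.trans ?_
      rw [hL]
      have : (2 : ℝ) ^ 22 * K ^ 10 ≤ (8 * K) ^ 10 := by
        rw [mul_pow]
        have : (0 : ℝ) ≤ K ^ 10 := by positivity
        nlinarith
      exact mul_le_mul_of_nonneg_right this hb0.le
    have hL1 : 1 ≤ L := by
      by_contra hcon
      push Not at hcon
      have h5 : b ≤ 2 ^ 22 * K ^ 10 * b := hBB.trans h2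
      have h6 : 1 ≤ 2 ^ 22 * K ^ 10 := by
        by_contra h7
        push Not at h7
        nlinarith
      have h7 : L ^ 10 < 1 := pow_lt_one₀ hL0.le hcon (by norm_num)
      rw [hL, mul_pow] at h7
      have : (0 : ℝ) ≤ K ^ 10 := by positivity
      nlinarith
    -- the sumset of `B`
    have h5 : ((B + B).card : ℝ) ≤ L ^ 20 * b := by
      have hp := pluennecke_ruzsa_inequality_nsmul_sub hBne B 2
      have hp' : (((2 • B).card : ℚ≥0) : ℝ) ≤
          ((((B - B).card / B.card : ℚ≥0) ^ 2 * B.card : ℚ≥0) : ℝ) := by exact_mod_cast hp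
      rw [two_nsmul] at hp'
      push_cast at hp'
      rw [← hb] at hp'
      refine hp'.trans ?_
      have h6 : ((B - B).card : ℝ) / b ≤ L ^ 10 := by
        rw [div_le_iff₀ hb0]; exact h4
      have h7 : (((B - B).card : ℝ) / b) ^ 2 ≤ (L ^ 10) ^ 2 :=
        pow_le_pow_left₀ (by positivity) h6 2
      calc (((B - B).card : ℝ) / b) ^ 2 * b ≤ (L ^ 10) ^ 2 * b :=
            mul_le_mul_of_nonneg_right h7 hb0.le
        _ = L ^ 20 * b := by ring
    have hfin : n ^ (ε1 / 21) ≤ L * (N0 + 1) := by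
      by_cases hbN : N0 ≤ B.card
      · have h6 := (h B (fun x hx => hA x (hBA hx)) hbN).trans h5
        rw [← hb, Real.rpow_add hb0, Real.rpow_one] at h6
        have h7 : b ^ ε ≤ L ^ 20 := by
          have : b * b ^ ε ≤ b * L ^ 20 := by linarith
          exact le_of_mul_le_mul_left this hb0
        have h8 : b ^ ε1 ≤ L ^ 20 := (Real.rpow_le_rpow_of_exponent_le hb1 e2).trans h7
        have h9 : n ^ ε1 ≤ L ^ 21 := by
          calc n ^ ε1 ≤ (L * b) ^ ε1 := Real.rpow_le_rpow (by linarith) h3 e0.le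
            _ = L ^ ε1 * b ^ ε1 := Real.mul_rpow hL0.le hb0.le
            _ ≤ L * L ^ 20 := by
                apply mul_le_mul _ h8 (by positivity) hL0.le
                calc L ^ ε1 ≤ L ^ (1 : ℝ) := Real.rpow_le_rpow_of_exponent_le hL1 e1
                  _ = L := Real.rpow_one L
            _ = L ^ 21 := by ring
        have h10 : (n ^ (ε1 / 21)) ^ 21 ≤ L ^ 21 := by
          rw [← Real.rpow_natCast (n ^ (ε1 / 21)) 21, ← Real.rpow_mul (by linarith)]
          have : ε1 / 21 * ((21 : ℕ) : ℝ) = ε1 := by push_cast; ring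
          rw [this]; exact h9
        have h11 : n ^ (ε1 / 21) ≤ L := le_of_pow_le_pow_left₀ (by norm_num) hL0.le h10
        have : (0 : ℝ) ≤ N0 := Nat.cast_nonneg _
        nlinarith
      · push Not at hbN
        have h6 : b ≤ N0 := by rw [hb]; exact_mod_cast hbN.le
        have h7 : n ^ (ε1 / 21) ≤ n := by
          calc n ^ (ε1 / 21) ≤ n ^ (1 : ℝ) :=
                Real.rpow_le_rpow_of_exponent_le hn1 (by linarith)
            _ = n := Real.rpow_one n
        have h8 : L * b ≤ L * (N0 + 1) := mul_le_mul_of_nonneg_left (by linarith) hL0.le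
        linarith
    rw [hL] at hfin
    linarith
  -- conclusion
  have hnd : 0 < n ^ (ε1 / 21) := Real.rpow_pos_of_pos (by linarith) _
  have h1 : n ^ (ε1 / 21) * E ≤ 8 * (N0 + 1) * n ^ 3 := by
    calc n ^ (ε1 / 21) * E ≤ 8 * (N0 + 1) * K * E := mul_le_mul_of_nonneg_right claim hE0.le
      _ = 8 * (N0 + 1) * (K * E) := by ring
      _ = _ := by rw [hKE]
  have h2 : n ^ (3 - ε1 / 21) * n ^ (ε1 / 21) = n ^ 3 := by
    rw [← Real.rpow_add (by linarith)]
    have : 3 - ε1 / 21 + ε1 / 21 = ((3 : ℕ) : ℝ) := by push_cast; ring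
    rw [this, Real.rpow_natCast]
  have h3 : E * n ^ (ε1 / 21) ≤ (8 * (N0 + 1) * n ^ (3 - ε1 / 21)) * n ^ (ε1 / 21) := by
    calc E * n ^ (ε1 / 21) ≤ 8 * (N0 + 1) * n ^ 3 := by linarith
      _ = _ := by rw [← h2]; ring
  exact le_of_mul_le_mul_right h3 hnd

end Pool.Agent.Y942.SQ
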