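import Mathlib
import Pool.Agent.Y942.SQ.Energy

/-!
From one variable to rational functions in any number of variables.
-/

set_option autoImplicit false

open Finset
open scoped Pointwise

namespace Pool.Agent.Y942.SQ

section abs

variable {G H : Type} [AddCommGroup G] [AddCommGroup H] [DecidableEq G] [DecidableEq H]

theorem card_add_image_le (A : Finset G) (f : G → H)
    (h2 : ∀ a ∈ A, ∀ b ∈ A, ∀ c ∈ A, ∀ d ∈ A, a + b = c + d → f a + f b = f c + f d) :
    (A.image f + A.image f).card ≤ (A + A).card := by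
  classical
  have key : ∀ s : G, ∃ t : H, ∀ a ∈ A, ∀ b ∈ A, a + b = s → f a + f b = t := by
    intro s
    by_cases hs : ∃ a ∈ A, ∃ b ∈ A, a + b = s
    · obtain ⟨a, ha, b, hb, hab⟩ := hs
      exact ⟨f a + f b, fun c hc d hd hcd => h2 c hc d hd a ha b hb (hcd.trans hab.symm)⟩
    · exact ⟨0, fun a ha b hb hab => absurd ⟨a, ha, b, hb, hab⟩ hs⟩
  choose g hg using key
  have hsub : A.image f + A.image f ⊆ (A + A).image g := by
    intro x hx
    obtain ⟨y, hy, z, hz, rfl⟩ := mem_add.1 hx
    obtain ⟨a, ha, rfl⟩ := mem_image.1 hy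
    obtain ⟨b, hb, rfl⟩ := mem_image.1 hz
    exact mem_image.2 ⟨a + b, add_mem_add ha hb, (hg _ a ha b hb rfl).symm⟩
  exact (card_le_card hsub).trans card_image_le

theorem energy_le_image (A : Finset G) (f : G → H) (h1 : Set.InjOn f A)
    (h2 : ∀ a ∈ A, ∀ b ∈ A, ∀ c ∈ A, ∀ d ∈ A, a + b = c + d → f a + f b = f c + f d) :
    A.addEnergy A ≤ (A.image f).addEnergy (A.image f) := by
  classical
  unfold Finset.addEnergy
  apply card_le_card_of_injOn (fun x : (G × G) × G × G => ((f x.1.1, f x.1.2), (f x.2.1, f x.2.2)))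
  · intro x hx
    rw [mem_coe, mem_filter, mem_product, mem_product, mem_product] at hx
    rw [mem_coe, mem_filter, mem_product, mem_product, mem_product]
    exact ⟨⟨⟨mem_image_of_mem f hx.1.1.1, mem_image_of_mem f hx.1.1.2⟩,
      ⟨mem_image_of_mem f hx.1.2.1, mem_image_of_mem f hx.1.2.2⟩⟩,
      h2 _ hx.1.1.1 _ hx.1.2.1 _ hx.1.1.2 _ hx.1.2.2 hx.2⟩
  · intro x hx y hy hxy
    rw [mem_coe, mem_filter, mem_product, mem_product, mem_product] at hx hy
    simp only [Prod.mk.injEq] at hxy
    refine Prod.ext (Prod.ext ?_ ?_) (Prod.ext ?_ ?_)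
    · exact h1 hx.1.1.1 hy.1.1.1 hxy.1.1
    · exact h1 hx.1.1.2 hy.1.1.2 hxy.1.2
    · exact h1 hx.1.2.1 hy.1.2.1 hxy.2.1
    · exact h1 hx.1.2.2 hy.1.2.2 hxy.2.2

end abs

open Polynomial in
/-- finitely many polynomials in several variables can be separated by a homomorphism to the
polynomials in one variable -/
theorem exists_hom (F : Type) [Field F] (σ : Type) (A : Finset (MvPolynomial σ F)) :
    ∃ φ : MvPolynomial σ F →+* F[X], Set.InjOn φ A := by
  classical
  obtain ⟨P, hP⟩ : ∃ P : MvPolynomial σ F, P = ∏ x ∈ A.offDiag, (x.1 - x.2) := ⟨_, rfl⟩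
  have hP0 : P ≠ 0 := by
    rw [hP, prod_ne_zero_iff]
    intro x hx
    rw [mem_offDiag] at hx
    exact sub_ne_zero.2 hx.2.2
  have hM : MvPolynomial.map (C : F →+* F[X]) P ≠ 0 := by
    intro h
    apply hP0
    apply MvPolynomial.map_injective (C : F →+* F[X]) C_injective
    rw [h, map_zero]
  have hex : ∃ x : σ → F[X], MvPolynomial.eval x (MvPolynomial.map (C : F →+* F[X]) P) ≠ 0 := by
    by_contra hcon
    push Not at hcon
    apply hM
    apply MvPolynomial.funext
    intro x
    rw [hcon x, map_zero]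
  obtain ⟨x, hx⟩ := hex
  refine ⟨(MvPolynomial.eval x).comp (MvPolynomial.map (C : F →+* F[X])), ?_⟩
  intro a ha b hb hab
  by_contra hne
  apply hx
  rw [← RingHom.comp_apply, hP, map_prod]
  apply prod_eq_zero (mem_offDiag.2 ⟨ha, hb, hne⟩ : (a, b) ∈ A.offDiag)
  rw [map_sub, hab, sub_self]

open Polynomial in
/-- a finite set of `k`-th powers of rational functions is isomorphic, as far as sums of two
elements are concerned, to a set of `k`-th powers of polynomials in one variable -/
theorem exists_model (F : Type) [Field F] (σ : Type) (k : ℕ) (hk : k ≠ 0)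
    (A : Finset (FractionRing (MvPolynomial σ F)))
    (hA : ∀ f ∈ A, ∃ g : FractionRing (MvPolynomial σ F), f = g ^ k) :
    ∃ f : FractionRing (MvPolynomial σ F) → F[X], Set.InjOn f A ∧
      (∀ a ∈ A, ∀ b ∈ A, ∀ c ∈ A, ∀ d ∈ A, a + b = c + d → f a + f b = f c + f d) ∧
      ∀ a ∈ A, ∃ g : F[X], f a = g ^ k := by
  classical
  obtain ⟨D, hD⟩ := IsLocalization.exist_integer_multiples_of_finset
    (nonZeroDivisors (MvPolynomial σ F)) A
  have hinjK : Function.Injective (algebraMap (MvPolynomial σ F) (FractionRing (MvPolynomial σ F))) :=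
    IsFractionRing.injective _ _
  have hD0 : algebraMap (MvPolynomial σ F) (FractionRing (MvPolynomial σ F)) (D : MvPolynomial σ F) ≠ 0 := by
    intro h
    have := (map_eq_zero_iff _ hinjK).1 h
    exact nonZeroDivisors.ne_zero D.2 this
  obtain ⟨l, rfl⟩ : ∃ l, k = l + 1 := ⟨k - 1, by omega⟩
  have key : ∀ a : FractionRing (MvPolynomial σ F), ∃ r : MvPolynomial σ F, a ∈ A →
      algebraMap (MvPolynomial σ F) (FractionRing (MvPolynomial σ F)) r =
        (algebraMap (MvPolynomial σ F) (FractionRing (MvPolynomial σ F)) (D : MvPolynomial σ F)) ^ (l + 1) * a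
      ∧ ∃ y : MvPolynomial σ F, r = y ^ (l + 1) := by
    intro a
    by_cases ha : a ∈ A
    · obtain ⟨r, hr⟩ := hD a ha
      rw [Algebra.smul_def] at hr
      refine ⟨(D : MvPolynomial σ F) ^ l * r, fun _ => ⟨?_, ?_⟩⟩
      · rw [map_mul, map_pow, hr]; ring
      · obtain ⟨z, hz⟩ := hA a ha
        -- `(D z) ^ k` is integral, so `D z` is
        obtain ⟨y, hy⟩ : ∃ y : MvPolynomial σ F,
            algebraMap (MvPolynomial σ F) (FractionRing (MvPolynomial σ F)) y =
              algebraMap (MvPolynomial σ F) (FractionRing (MvPolynomial σ F)) (D : MvPolynomial σ F) * z := by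
          apply IsIntegrallyClosed.algebraMap_eq_of_integral
          have h1 : IsIntegral (MvPolynomial σ F)
              ((algebraMap (MvPolynomial σ F) (FractionRing (MvPolynomial σ F)) (D : MvPolynomial σ F) * z) ^ (l + 1)) := by
            have : (algebraMap (MvPolynomial σ F) (FractionRing (MvPolynomial σ F)) (D : MvPolynomial σ F) * z) ^ (l + 1) =
                algebraMap (MvPolynomial σ F) (FractionRing (MvPolynomial σ F)) ((D : MvPolynomial σ F) ^ l * r) := by
              rw [map_mul, map_pow, hr, hz]; ring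
            rw [this]
            exact isIntegral_algebraMap
          exact IsIntegral.of_pow (Nat.succ_pos l) h1
        refine ⟨y, ?_⟩
        apply hinjK
        rw [map_mul, map_pow, map_pow, hy, hr, hz]; ring
    · exact ⟨0, fun h => absurd h ha⟩
  choose r hr using key
  obtain ⟨φ, hφ⟩ := exists_hom F σ (A.image r)
  have hrinj : Set.InjOn r A := by
    intro a ha b hb hab
    have h1 := (hr a ha).1
    have h2 := (hr b hb).1
    rw [hab, h2] at h1
    exact (mul_left_cancel₀ (pow_ne_zero (l + 1) hD0) h1).symm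
  refine ⟨fun a => φ (r a), ?_, ?_, ?_⟩
  · intro a ha b hb hab
    exact hrinj ha hb (hφ (by rw [coe_image]; exact Set.mem_image_of_mem r ha)
      (by rw [coe_image]; exact Set.mem_image_of_mem r hb) hab)
  · intro a ha b hb c hc d hd habcd
    change φ (r a) + φ (r b) = φ (r c) + φ (r d)
    rw [← map_add, ← map_add]
    congr 1
    apply hinjK
    rw [map_add, map_add, (hr a ha).1, (hr b hb).1, (hr c hc).1, (hr d hd).1, ← mul_add, ← mul_add,
      habcd]
  · intro a ha
    obtain ⟨y, hy⟩ := (hr a ha).2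
    refine ⟨φ y, ?_⟩
    change φ (r a) = _
    rw [hy, map_pow]

end Pool.Agent.Y942.SQ
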