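import Mathlib
import Pool.Agent.Y942.SQ.Grow

/-!
Growth of grid free sets with an exponent that depends on the dimension of the grid only.
-/

set_option autoImplicit false

open Polynomial
open scoped Pointwise

namespace Pool.Agent.Y942.SQ

open Pool.Agent.Helper999.Sq3

/-- uniform growth of large sets without grids -/
theorem growth_unif (p : ℕ) [Fact p.Prime] (hp2 : p ≠ 2) (K : ℕ) :
    ∃ (ε : ℝ) (N0 : ℕ), 0 < ε ∧ ∀ (V : Type) [AddCommGroup V] [Module (ZMod p) V] [DecidableEq V]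
      (P : V → Prop), ¬ HasGrid p K {x | P x} → ∀ A : Finset V, (∀ x ∈ A, P x) → N0 ≤ A.card →
        (A.card : ℝ) ^ (1 + ε) ≤ ((A + A).card : ℝ) := by
  have hp : 2 ≤ p := (Fact.out : p.Prime).two_le
  obtain ⟨C₀, dense₀⟩ := grid_of_dense p hp2 (capP p hp2) (fun n m c A hc => supersatP p n m c A hc) K
  obtain ⟨C, hC⟩ : ∃ C, C = C₀ + 1 := ⟨_, rfl⟩
  have dense' : ∀ (a n : ℕ) (A : Finset (Fin n → ZMod p)), p ^ n ≤ p ^ a * A.card →
      C * (a + 1) < n → HasGrid p K (A : Set (Fin n → ZMod p)) := by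
    intro a n A h1 h2
    refine dense₀ a n A h1 (lt_of_le_of_lt ?_ h2)
    exact Nat.mul_le_mul_right _ (by omega)
  have hC0 : 0 < C := by omega
  refine ⟨1 / (8 * C : ℕ), p ^ K + p ^ (6 * C) + 2, by positivity, ?_⟩
  intro V _ _ _ P hP A hA hN
  have h1 := growthP_main p K {x | P x} (fun n => p ^ K ≤ n) hP (by
    intro A hA hN _
    by_contra hcon
    push Not at hcon
    exact hP (hasGrid_mono (coset_grid A K hN hcon) hA))
    (fun A hA => modellingP p A hA) (fun _ A φ hφ h => lift_grid p K A φ hφ h) C dense' A hA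
    (by omega) (by omega) (by omega)
  have hNpos : (0 : ℝ) < (A.card : ℝ) := by
    have : 0 < A.card := by omega
    exact_mod_cast this
  have hm0 : (8 * C : ℕ) ≠ 0 := by omega
  have hmain' : (A.card : ℝ) ^ (8 * C + 1) ≤ ((A + A).card : ℝ) ^ (8 * C) := by
    exact_mod_cast h1
  refine le_of_pow_le_pow_left₀ hm0 (by positivity) ?_
  rw [← Real.rpow_mul_natCast hNpos.le]
  have e : (1 + 1 / ((8 * C : ℕ) : ℝ)) * ((8 * C : ℕ) : ℝ) = ((8 * C + 1 : ℕ) : ℝ) := by
    have : ((8 * C : ℕ) : ℝ) ≠ 0 := by exact_mod_cast hm0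
    rw [add_mul, one_div, inv_mul_cancel₀ this, one_mul]
    push_cast
    ring
  rw [e, Real.rpow_natCast]
  exact hmain'

end Pool.Agent.Y942.SQ
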