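import Mathlib
import Pool.Agent.Y942.SQ.Asym
import Pool.Agent.Y942.SQ.Transfer
import Pool.Agent.Y942.SQ.Unif
import Pool.Agent.Y942.SQ.Kpow
import Pool.Agent.Helper999.Sq3.FullOf

/-!
Energy of finite sets of `k`-th powers of rational functions over a finite field.
-/

set_option autoImplicit false

open Polynomial
open scoped Pointwise

namespace Pool.Agent.Y942.SQ

open Pool.Agent.Helper999.Sq3

theorem prime_ringChar (F : Type) [Field F] [Finite F] : (ringChar F).Prime := by
  rcases CharP.char_is_prime_or_zero F (ringChar F) with h | h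
  · exact h
  · exfalso
    have : CharP F 0 := by rw [← h]; infer_instance
    have : CharZero F := CharP.charP_to_charZero F
    exact not_injective_infinite_finite (fun n : ℕ => (n : F)) Nat.cast_injective

/-- the energy of sets of `m`-th powers of polynomials in one variable -/
theorem energy_poly (F : Type) [Field F] [Finite F] (hF : ringChar F ≠ 2) :
    ∃ δ C : ℝ, 0 < δ ∧ δ ≤ 1 ∧ 1 ≤ C ∧ ∀ (m : ℕ), 2 ≤ m → ¬ ringChar F ∣ m →
      ∀ [DecidableEq F[X]] (A : Finset F[X]), (∀ f ∈ A, ∃ g : F[X], f = g ^ m) →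
        ((A.addEnergy A : ℕ) : ℝ) ≤ C * (A.card : ℝ) ^ (3 - δ) := by
  have hpr := prime_ringChar F
  obtain ⟨p, hp⟩ : ∃ p, p = ringChar F := ⟨_, rfl⟩
  rw [← hp] at hF hpr ⊢
  have hchar : CharP F p := by rw [hp]; infer_instance
  have hprime : Fact p.Prime := ⟨hpr⟩
  let _ : Algebra (ZMod p) F := ZMod.algebra F p
  obtain ⟨ε, N0, hε, hgr⟩ := growth_unif p hF (10 * Module.finrank (ZMod p) F + 1)
  obtain ⟨δ, C, h1, h2, h3, h4⟩ := energy_of_growth ε hε N0
  refine ⟨δ, C, h1, h2, h3, ?_⟩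
  intro m hm hpm _ A hA
  exact h4 F[X] (fun f => ∃ g : F[X], f = g ^ m)
    (fun A hA hN => hgr F[X] (fun f => ∃ g : F[X], f = g ^ m) (noGrid_pow hF hm hpm) A hA hN) A hA

/-- reduction to powers prime to the characteristic in the polynomial ring in one variable -/
theorem reduction (F : Type) [Field F] (p : ℕ) [Fact p.Prime] [CharP F p] (σ : Type) (k : ℕ)
    (hk : 0 < k) (hkp : ∀ a : ℕ, k ≠ p ^ a) (A : Finset (FractionRing (MvPolynomial σ F)))
    (hA : ∀ f ∈ A, ∃ g : FractionRing (MvPolynomial σ F), f = g ^ k) :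
    ∃ m : ℕ, 2 ≤ m ∧ ¬ p ∣ m ∧
    ∃ f : FractionRing (MvPolynomial σ F) → F[X], Set.InjOn f A ∧
      (∀ a ∈ A, ∀ b ∈ A, ∀ c ∈ A, ∀ d ∈ A, a + b = c + d → f a + f b = f c + f d) ∧
      ∀ a ∈ A, ∃ g : F[X], f a = g ^ m := by
  classical
  obtain ⟨a, m, hpm, hkm⟩ := Nat.exists_eq_pow_mul_and_not_dvd hk.ne' p (Fact.out : p.Prime).ne_one
  have hm0 : m ≠ 0 := by
    rintro rfl
    exact hpm (dvd_zero p)
  have hm1 : m ≠ 1 := by
    rintro rfl
    rw [mul_one] at hkm
    exact hkp a hkm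
  refine ⟨m, by omega, hpm, ?_⟩
  have hK : CharP (FractionRing (MvPolynomial σ F)) p :=
    charP_of_injective_algebraMap (algebraMap F (FractionRing (MvPolynomial σ F))).injective p
  have key : ∀ x : FractionRing (MvPolynomial σ F), ∃ y : FractionRing (MvPolynomial σ F),
      x ∈ A → (y ^ (p ^ a) = x ∧ ∃ g : FractionRing (MvPolynomial σ F), y = g ^ m) := by
    intro x
    by_cases hx : x ∈ A
    · obtain ⟨g, hg⟩ := hA x hx
      refine ⟨g ^ m, fun _ => ⟨?_, g, rfl⟩⟩
      rw [hg, hkm, ← pow_mul, mul_comm]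
    · exact ⟨0, fun h => absurd h hx⟩
  choose r hr using key
  have hfrob : ∀ x y : FractionRing (MvPolynomial σ F), x ^ (p ^ a) = y ^ (p ^ a) → x = y := by
    intro x y hxy
    have h1 : (x - y) ^ (p ^ a) = 0 := by rw [sub_pow_char_pow, hxy, sub_self]
    exact sub_eq_zero.1 (eq_zero_of_pow_eq_zero h1)
  obtain ⟨f, hf1, hf2, hf3⟩ := exists_model F σ m hm0 (A.image r) (by
    intro y hy
    obtain ⟨x, hx, rfl⟩ := Finset.mem_image.1 hy
    exact (hr x hx).2)
  have hmem : ∀ x ∈ A, r x ∈ A.image r := fun x hx => Finset.mem_image_of_mem r hx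
  refine ⟨fun x => f (r x), ?_, ?_, fun x hx => hf3 _ (hmem x hx)⟩
  · intro x hx y hy hxy
    have h1 := hf1 (hmem x hx) (hmem y hy) hxy
    rw [← (hr x hx).1, ← (hr y hy).1, h1]
  · intro x hx y hy z hz w hw h
    apply hf2 _ (hmem x hx) _ (hmem y hy) _ (hmem z hz) _ (hmem w hw)
    apply hfrob
    rw [add_pow_char_pow, add_pow_char_pow, (hr x hx).1, (hr y hy).1, (hr z hz).1, (hr w hw).1, h]

/-- the energy of sets of `k`-th powers of rational functions in any number of variables -/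
theorem energy_main (F : Type) [Field F] [Finite F] (hF : ringChar F ≠ 2) :
    ∃ δ C : ℝ, 0 < δ ∧ δ ≤ 1 ∧ 1 ≤ C ∧ ∀ (k : ℕ), 0 < k → (∀ a : ℕ, k ≠ ringChar F ^ a) →
      ∀ (σ : Type) [DecidableEq (FractionRing (MvPolynomial σ F))]
        (A : Finset (FractionRing (MvPolynomial σ F))),
        (∀ f ∈ A, ∃ g : FractionRing (MvPolynomial σ F), f = g ^ k) →
        ((A.addEnergy A : ℕ) : ℝ) ≤ C * (A.card : ℝ) ^ (3 - δ) := by
  obtain ⟨δ, C, h1, h2, h3, h4⟩ := energy_poly F hF
  refine ⟨δ, C, h1, h2, h3, ?_⟩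
  intro k hk hkp σ _ A hA
  have hprime : Fact (ringChar F).Prime := ⟨prime_ringChar F⟩
  obtain ⟨m, hm, hpm, f, hf1, hf2, hf3⟩ := reduction F (ringChar F) σ k hk hkp A hA
  let _ : DecidableEq F[X] := Classical.decEq _
  have h5 := h4 m hm hpm (A.image f) (by
    intro y hy
    obtain ⟨x, hx, rfl⟩ := Finset.mem_image.1 hy
    exact hf3 x hx)
  have h6 : ((A.addEnergy A : ℕ) : ℝ) ≤ (((A.image f).addEnergy (A.image f) : ℕ) : ℝ) := by
    exact_mod_cast energy_le_image A f hf1 hf2
  rw [Finset.card_image_of_injOn hf1] at h5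
  exact h6.trans h5

/-- the polynomials in one variable inside of the rational functions -/
theorem exists_embed (F : Type) [Field F] :
    ∃ φ : F[X] →+* FractionRing (MvPolynomial PUnit F), Function.Injective φ :=
  ⟨(algebraMap (MvPolynomial PUnit F) (FractionRing (MvPolynomial PUnit F))).comp
    ((MvPolynomial.uniqueAlgEquiv F PUnit).symm : F[X] →+* MvPolynomial PUnit F),
    (IsFractionRing.injective (MvPolynomial PUnit F) (FractionRing (MvPolynomial PUnit F))).comp
      (MvPolynomial.uniqueAlgEquiv F PUnit).symm.injective⟩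

/-- no growth for powers whose exponent is a power of the characteristic -/
theorem no_growth (F : Type) [Field F] [Finite F] [DecidableEq F[X]] (a N : ℕ) :
    ∃ A : Finset F[X], (∀ f ∈ A, ∃ g : F[X], f = g ^ (ringChar F ^ a)) ∧ N ≤ A.card ∧
      (A + A).card = A.card := by
  classical
  have hprime : Fact (ringChar F).Prime := ⟨prime_ringChar F⟩
  have hfin : Finite (degreeLT F N) := by
    have : Finite (Fin N → F) := inferInstance
    exact Finite.of_equiv _ (degreeLTEquiv F N).toEquiv.symm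
  obtain ⟨S, hS⟩ : ∃ S : Finset F[X], ∀ f, f ∈ S ↔ f ∈ degreeLT F N := by
    have : (degreeLT F N : Set F[X]).Finite := Set.toFinite _
    exact ⟨this.toFinset, fun f => by rw [Set.Finite.mem_toFinset]; rfl⟩
  have hinj : Function.Injective (fun f : F[X] => f ^ (ringChar F ^ a)) := by
    intro x y hxy
    have h1 : (x - y) ^ (ringChar F ^ a) = 0 := by
      rw [sub_pow_char_pow]
      exact sub_eq_zero.2 hxy
    exact sub_eq_zero.1 (eq_zero_of_pow_eq_zero h1)
  refine ⟨S.image (fun f => f ^ (ringChar F ^ a)), ?_, ?_, ?_⟩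
  · intro f hf
    obtain ⟨g, _, rfl⟩ := Finset.mem_image.1 hf
    exact ⟨g, rfl⟩
  · rw [Finset.card_image_of_injective _ hinj]
    have h1 : ((Finset.range N).image (fun i => (X : F[X]) ^ i)) ⊆ S := by
      intro f hf
      obtain ⟨i, hi, rfl⟩ := Finset.mem_image.1 hf
      rw [hS, mem_degreeLT, degree_X_pow]
      exact_mod_cast Finset.mem_range.1 hi
    have h2 := Finset.card_le_card h1
    rw [Finset.card_image_of_injective, Finset.card_range] at h2
    · exact h2
    · intro i j hij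
      have := congrArg natDegree hij
      simpa using this
  · apply le_antisymm
    · apply Finset.card_le_card
      intro f hf
      obtain ⟨u, hu, v, hv, rfl⟩ := Finset.mem_add.1 hf
      obtain ⟨x, hx, rfl⟩ := Finset.mem_image.1 hu
      obtain ⟨y, hy, rfl⟩ := Finset.mem_image.1 hv
      refine Finset.mem_image.2 ⟨x + y, (hS _).2 (Submodule.add_mem _ ((hS x).1 hx) ((hS y).1 hy)), ?_⟩
      exact add_pow_char_pow x y _ _
    · obtain ⟨x, hx⟩ : ∃ x, x ∈ S.image (fun f => f ^ (ringChar F ^ a)) :=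
        ⟨_, Finset.mem_image_of_mem _ ((hS 0).2 (Submodule.zero_mem _))⟩
      exact Finset.card_le_card_add_right ⟨x, hx⟩

/-- squares over a prime field, without constants -/
theorem exact_main (LP : ∀ (p : ℕ) [Fact p.Prime], 5 ≤ p → Pool.Helper329.SQ.LemmaP (ZMod p))
    (p : ℕ) [Fact p.Prime] (hp : p ≠ 2) :
    ∃ ε : ℝ, 0 < ε ∧
      (∀ A : Finset (ZMod p)[X], (∀ f ∈ A, IsSquare f) → (p = 3 → A.card ≠ 3) →
        (A.card : ℝ) ^ (1 + ε) ≤ ((A + A).card : ℝ)) ∧
      (∀ (σ : Type) [DecidableEq (FractionRing (MvPolynomial σ (ZMod p)))]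
        (A : Finset (FractionRing (MvPolynomial σ (ZMod p)))), (∀ f ∈ A, IsSquare f) →
        (p = 3 → A.card ≠ 3) → (A.card : ℝ) ^ (1 + ε) ≤ ((A + A).card : ℝ)) := by
  obtain ⟨ε, hε, h⟩ := full_of LP p hp
  refine ⟨ε, hε, h, ?_⟩
  intro σ _ A hA h3
  obtain ⟨f, hf1, hf2, hf3⟩ := exists_model (ZMod p) σ 2 (by norm_num) A (by
    intro x hx
    obtain ⟨g, hg⟩ := hA x hx
    exact ⟨g, by rw [hg, sq]⟩)
  have hc : (A.image f).card = A.card := Finset.card_image_of_injOn hf1
  have h4 := h (A.image f) (by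
    intro y hy
    obtain ⟨x, hx, rfl⟩ := Finset.mem_image.1 hy
    obtain ⟨g, hg⟩ := hf3 x hx
    exact ⟨g, by rw [hg, sq]⟩) (fun h => by rw [hc]; exact h3 h)
  rw [hc] at h4
  have h5 : (((A.image f + A.image f).card : ℕ) : ℝ) ≤ ((A + A).card : ℝ) := by
    exact_mod_cast card_add_image_le A f hf2
  exact h4.trans h5

/-- the exponent has to depend on the prime -/
theorem exponent_small (ε : ℝ) (hε : 0 < ε) : ∃ (p : ℕ) (_ : Fact p.Prime), 5 ≤ p ∧
    ∃ A : Finset (ZMod p)[X], (∀ f ∈ A, IsSquare f) ∧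
      ((A + A).card : ℝ) < (A.card : ℝ) ^ (1 + ε) := by
  classical
  obtain ⟨N, hN⟩ : ∃ N : ℕ, (2 : ℝ) < (N : ℝ) ^ ε := by
    have h1 := (tendsto_rpow_atTop hε).comp tendsto_natCast_atTop_atTop (α := ℕ)
    exact ((h1.eventually (Filter.eventually_gt_atTop 2))).exists
  obtain ⟨p, hpN, hp⟩ := Nat.exists_infinite_primes (2 * N + 5)
  have hF : Fact p.Prime := ⟨hp⟩
  refine ⟨p, hF, by omega, (Finset.univ : Finset (ZMod p)).image (fun a => C (a * a)), ?_, ?_⟩
  · intro f hf
    obtain ⟨a, _, rfl⟩ := Finset.mem_image.1 hf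
    exact ⟨C a, C_mul⟩
  · obtain ⟨A, hA⟩ : ∃ A : Finset (ZMod p)[X],
      A = (Finset.univ : Finset (ZMod p)).image (fun a => C (a * a)) := ⟨_, rfl⟩
    rw [← hA]
    have h1 : (Finset.univ : Finset (ZMod p)).card ≤ 2 * A.card := by
      rw [hA]
      apply Finset.card_le_mul_card_image
      intro y hy
      obtain ⟨b, _, rfl⟩ := Finset.mem_image.1 hy
      have : (Finset.univ : Finset (ZMod p)).filter (fun a => (C (a * a) : (ZMod p)[X]) = C (b * b)) ⊆
          {b, -b} := by
        intro a ha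
        have h2 := C_injective (Finset.mem_filter.1 ha).2
        rw [Finset.mem_insert, Finset.mem_singleton]
        exact mul_self_eq_mul_self_iff.1 h2
      exact (Finset.card_le_card this).trans Finset.card_le_two
    rw [Finset.card_univ, ZMod.card] at h1
    have h2 : (A + A).card ≤ p := by
      have h3 : A + A ⊆ (Finset.univ : Finset (ZMod p)).image (fun a => (C a : (ZMod p)[X])) := by
        intro f hf
        obtain ⟨u, hu, v, hv, rfl⟩ := Finset.mem_add.1 hf
        rw [hA] at hu hv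
        obtain ⟨x, hx, rfl⟩ := Finset.mem_image.1 hu
        obtain ⟨y, hy, rfl⟩ := Finset.mem_image.1 hv
        exact Finset.mem_image.2 ⟨x * x + y * y, Finset.mem_univ _, C_add⟩
      have h4 := (Finset.card_le_card h3).trans Finset.card_image_le
      rwa [Finset.card_univ, ZMod.card] at h4
    have hNA : N ≤ A.card := by omega
    have hA0 : (0 : ℝ) < A.card := by
      have : 0 < A.card := by omega
      exact_mod_cast this
    have h5 : ((A + A).card : ℝ) ≤ 2 * A.card := by
      exact_mod_cast h2.trans h1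
    have h6 : (2 : ℝ) < (A.card : ℝ) ^ ε :=
      hN.trans_le (Real.rpow_le_rpow (Nat.cast_nonneg _) (by exact_mod_cast hNA) hε.le)
    rw [Real.rpow_add hA0, Real.rpow_one]
    nlinarith

end Pool.Agent.Y942.SQ
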